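import Pool.Agent.X234.FV.Final

/-!
# The 5-adic congruence for the weighted sum with denominator `864^k`
-/

set_option autoImplicit false

namespace Pool.Agent.Results.MP_d4e3f3_nt.SeventyFive

open Finset

/-- For every `a ≥ 1` the rational number `(S_a / 5^a - 75) / 125` has denominator prime to 5,
where `S_a = ∑_{k < 5^a} k C(6k,3k) C(3k,k) / 864^k`. -/
theorem result (a : ℕ) (ha : 1 ≤ a) :
    ¬ 5 ∣ (((∑ k ∈ range (5 ^ a), (k : ℚ) * ((6 * k).choose (3 * k) : ℚ) *
      ((3 * k).choose k : ℚ) / 864 ^ k) / 5 ^ a - 75) / 125).den :=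
  Pool.Agent.X234.FV.main a ha

end Pool.Agent.Results.MP_d4e3f3_nt.SeventyFive
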